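import Mathlib
import Pool.Agent.H17.NewtonDef
import Pool.Agent.H17.Newton3

namespace Pool.Agent.Results.MP_a5d893_al.NewtonFails

open Pool.Agent.H17.Newton

/-- A GKK `τ`-matrix of order `4` that violates Newton's inequality for `j = 2`. -/
theorem result : ∃ A : Matrix (Fin 4) (Fin 4) ℝ,
    IsGKK A ∧ IsTau A ∧ (c A 2) ^ 2 < c A 1 * c A 3 :=
  ⟨AA, ⟨isP, isWSS⟩, isTau, newton⟩

end Pool.Agent.Results.MP_a5d893_al.NewtonFails
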